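import Mathlib
import Pool.Agent.H25.AlmostReg

set_option autoImplicit false

universe u

namespace Pool.Agent.Results.MP_9a42a6_lc.Triple

open Cardinal Set

/-- `d` is the least coordinate at which `x` and `y` differ. -/
def IsDelta {W : Type u} [LinearOrder W] (x y : W → Bool) (d : W) : Prop :=
  IsLeast {i | x i ≠ y i} d

/-- Almost `Δ`-regressive colourings of pairs from `2^W`. -/
def AlmostRegressive {W : Type u} [LinearOrder W] (c : Sym2 (W → Bool) → W) : Prop :=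
  ∃ μ : W, ∀ x y d, IsDelta x y d → c s(x, y) < max d μ

theorem result (κ : Cardinal.{u}) (_hreg : κ.IsRegular) (hu : ℵ₀ < κ)
    (hpow : ∀ μ, μ < κ → (2 : Cardinal.{u}) ^ μ < 2 ^ κ)
    (c : Sym2 (κ.ord.ToType → Bool) → κ.ord.ToType) (hc : AlmostRegressive c) :
    ∃ x y z, x ≠ y ∧ x ≠ z ∧ y ≠ z ∧ c s(x, y) = c s(x, z) ∧ c s(x, y) = c s(y, z) := by
  obtain ⟨μ, hμ⟩ := hc
  obtain ⟨Y, i, h1, h2⟩ := Pool.Agent.H25.AlmostReg.main κ hu hpow c μ hμ
  have h3 : Y.Infinite := by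
    intro h
    exact absurd h1 (not_lt.2 (le_aleph0_iff_set_countable.2 h.countable))
  obtain ⟨x, hx⟩ := h3.nonempty
  obtain ⟨y, hy, hxy⟩ := h3.exists_notMem_finite (finite_singleton x)
  obtain ⟨z, hz, hz2⟩ := h3.exists_notMem_finite (toFinite {x, y})
  have g1 : x ≠ y := fun h => hxy h.symm
  have g2 : x ≠ z := fun h => hz2 (by simp [h])
  have g3 : y ≠ z := fun h => hz2 (by simp [h])
  exact ⟨x, y, z, g1, g2, g3, (h2 x hx y hy g1).trans (h2 x hx z hz g2).symm,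
    (h2 x hx y hy g1).trans (h2 y hy z hz g3).symm⟩

end Pool.Agent.Results.MP_9a42a6_lc.Triple
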